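import Mathlib
import Pool.Agent.Helper28.NT.Defs3

/-!
# NT, block P: data and statements

`Red P w c w0`: the vector `c w` is integral at the place `P`, with the reduction `w0`, not zero. `ord c` and the
class of `w0` do not depend on the choice of `c`.
-/

set_option autoImplicit false
set_option linter.unusedSectionVars false

namespace Pool.Agent.Helper9.NP

open VC VF Pool.Agent.NT28
open Pool.Agent.Helper51.VN (Harm)

universe u

/-- `c w` is integral at `P` with the reduction `w0 ≠ 0`. -/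
def Red {k K : Type u} [Field k] [Field K] [Algebra k K] (P : Place k K) (w : Fin 3 → K) (c : K)
    (w0 : Fin 3 → k) : Prop :=
  c ≠ 0 ∧ w0 ≠ 0 ∧ ∀ i, c * w i - algebraMap k K (w0 i) ∈ P.ring.nonunits

open Classical in
/-- The order of the scaling factor, that is minus the minimum of the orders of the coordinates. -/
noncomputable def ht {k K : Type u} [Field k] [Field K] [Algebra k K] (P : Place k K) (w : Fin 3 → K) : ℤ :=
  if h : ∃ c : K, ∃ w0 : Fin 3 → k, Red P w c w0 then ord P.ring h.choose else 0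

/-- The data of block P. -/
structure PDat (k K : Type u) [Field k] [IsAlgClosed k] [CharZero k] [Field K] [Algebra k K] where
  hK : IsFunctionField k K
  Q : Fin 3 → Matrix (Fin 3) (Fin 3) k
  smo : Smo Q
  x : K
  y : K
  nalg : ¬ IsAlgebraic k x ∨ ¬ IsAlgebraic k y
  dl0 : dl (ext K Q) ![x, y, 1] = 0
  v : Fin 3 → K
  l : Fin 3 → K
  m : Fin 3 → K
  W : ∀ (z : Fin 3 → K) (a : Fin 3), mv (qm (ext K Q) ![x, y, 1]) z a + crs v z a / 2 = m a * dot l z
  gen : IntermediateField.adjoin k ({x, y} ∪ Set.range v) = ⊤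
  ι : K ≃ₐ[k] K
  ιx : ι x = x
  ιy : ι y = y
  ιv : ∀ a, ι (v a) = - v a

/-- The generic parameter. -/
def PDat.e {k K : Type u} [Field k] [IsAlgClosed k] [CharZero k] [Field K] [Algebra k K] (D : PDat k K) :
    Fin 3 → K := ![D.x, D.y, 1]

/-- BLOCK P0 (helper9): every nonzero vector has a reduction, the order of the scaling factor and the reduction up
to a constant are unique. -/
def StmtP0 : Prop :=
  ∀ (k K : Type u) [Field k] [IsAlgClosed k] [CharZero k] [Field K] [Algebra k K] (_ : IsFunctionField k K)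
    (P : Place k K) (w : Fin 3 → K), w ≠ 0 → (∃ c w0, Red P w c w0) ∧
      (∀ c w0, Red P w c w0 → ht P w = ord P.ring c) ∧
      ∀ c w0 c' w0', Red P w c w0 → Red P w c' w0' → ∃ a : k, a ≠ 0 ∧ ∀ i, w0' i = a * w0 i

/-- BLOCK P1 (helper40): the reductions of `e`, `l`, `m` at a place. -/
def StmtP1 : Prop :=
  ∀ (k K : Type u) [Field k] [IsAlgClosed k] [CharZero k] [Field K] [Algebra k K] (D : PDat k K) (P : Place k K),
    ∃ (ce cl cm : K) (e0 l0 m0 : Fin 3 → k) (κ : k), Red P D.e ce e0 ∧ Red P D.l cl l0 ∧ Red P D.m cm m0 ∧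
      dl D.Q e0 = 0 ∧ κ ≠ 0 ∧ (∀ z : Fin 3 → k, qv (qm D.Q e0) z = κ * (dot l0 z * dot m0 z)) ∧
      ord P.ring ce = ord P.ring cl + ord P.ring cm

/-- BLOCK P2 (helper40): the degree of `e` is at most six. -/
def StmtP2 : Prop :=
  ∀ (k K : Type u) [Field k] [IsAlgClosed k] [CharZero k] [Field K] [Algebra k K] (D : PDat k K),
    ∃ S : Finset (Place k K), (∀ P, P ∉ S → ht P D.e = 0) ∧ ∑ P ∈ S, ht P D.e ≤ 6

/-- BLOCK P3 (helper9): the three places where the line `l` passes through a point. -/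
def StmtP3 : Prop :=
  ∀ (k K : Type u) [Field k] [IsAlgClosed k] [CharZero k] [Field K] [Algebra k K] (D : PDat k K)
    (μ : Place k K → k), Harm D.hK μ → ∃ C : k, ∀ b : Fin 3 → k, b ≠ 0 → ∀ T : Finset (Place k K), T.card = 3 →
      (∀ P ∈ T, ∃ c l0, Red P D.l c l0 ∧ dot l0 b = 0) → ∑ P ∈ T, μ P = C

/-- BLOCK P4 (helper17): every point of the discriminant curve is the reduction of `e` at some place. -/
def StmtP4 : Prop :=
  ∀ (k K : Type u) [Field k] [IsAlgClosed k] [CharZero k] [Field K] [Algebra k K] (D : PDat k K)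
    (e0 : Fin 3 → k), e0 ≠ 0 → dl D.Q e0 = 0 → ∃ (P : Place k K) (c : K), Red P D.e c e0

/-- BLOCK P5 (helper98): four points, the first two on the line `l0` of the conic `e0`. -/
def StmtP5 : Prop :=
  ∀ (k : Type u) [Field k] [IsAlgClosed k] [CharZero k] (Q : Fin 3 → Matrix (Fin 3) (Fin 3) k), Smo Q →
    ∀ (e0 l0 m0 : Fin 3 → k) (κ : k), e0 ≠ 0 → dl Q e0 = 0 → κ ≠ 0 →
    (∀ z : Fin 3 → k, qv (qm Q e0) z = κ * (dot l0 z * dot m0 z)) →
    ∃ T : Pts k k, T.Q = Q ∧ (∃ a : k, ∀ i, T.e 0 1 i = a * e0 i) ∧ dot l0 (T.p 0) = 0 ∧ dot l0 (T.p 1) = 0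

/-- BLOCK P6 (helper9): the assembly. -/
def StmtP6 : Prop :=
  ∀ (k K : Type u) [Field k] [IsAlgClosed k] [CharZero k] [Field K] [Algebra k K] (D : PDat k K)
    (μ : Place k K → k), Harm D.hK μ → ∀ P : Place k K,
      μ (Place.comap D.hK D.hK ((D.ι : K ≃ₐ[k] K) : K →ₐ[k] K) P) = μ P

theorem stmtP_of (h : StmtP6.{u}) : StmtP.{u} := by
  intro k K _ _ _ _ _ hK Q hQ x y hxy hd v l m hW hg ι hx hy hv μ hμ P
  exact h k K ⟨hK, Q, hQ, x, y, hxy, hd, v, l, m, hW, hg, ι, hx, hy, hv⟩ μ hμ P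

end Pool.Agent.Helper9.NP
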